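import Pool.Agent.Helper61.QS.GoalsC

/-!
Packet QS-CE (project QS, MP_0ebdb3_gt): split off the part of the generators in the commutant.
-/

set_option autoImplicit false

open Set NormedSpace

namespace Pool.Agent.Helper69.QS

open Pool.Agent.Helper61.QS

variable {k : ℕ}

lemma e_add (X : En k) (a b : ℝ) : exp ((a + b) • X) = exp (a • X) * exp (b • X) := by
  letI : NormedAlgebra ℚ (En k) := NormedAlgebra.restrictScalars ℚ ℝ (En k)
  rw [add_smul]
  exact exp_add_of_commute ((Commute.refl X).smul_left a |>.smul_right b)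

lemma e_zero (X : En k) : exp ((0 : ℝ) • X) = 1 := by rw [zero_smul, exp_zero]

lemma e_neg_mul (X : En k) (a : ℝ) : exp ((-a) • X) * exp (a • X) = 1 := by
  rw [← e_add, neg_add_cancel, e_zero]

lemma e_mul_neg (X : En k) (a : ℝ) : exp (a • X) * exp ((-a) • X) = 1 := by
  rw [← e_add, add_neg_cancel, e_zero]

/-- the commutant -/
def CC (Ψ : ℝ → En k) : Submodule ℝ (En k) where
  carrier := {c | ∀ β, c * Ψ β = Ψ β * c}
  add_mem' := fun {a b} ha hb β => by rw [add_mul, mul_add, ha β, hb β]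
  zero_mem' := fun β => by rw [zero_mul, mul_zero]
  smul_mem' := fun r c hc β => by rw [smul_mul_assoc, mul_smul_comm, hc β]

lemma mem_CC {Ψ : ℝ → En k} {c : En k} : c ∈ CC Ψ ↔ ∀ β, c * Ψ β = Ψ β * c := Iff.rfl

lemma CC.mul {Ψ : ℝ → En k} {c d : En k} (hc : c ∈ CC Ψ) (hd : d ∈ CC Ψ) : c * d ∈ CC Ψ := fun β => by
  rw [mul_assoc, hd β, ← mul_assoc, hc β, mul_assoc]

lemma CC.star {Ψ : ℝ → En k} (hΨ : ∀ β, Ψ β ∈ unitary (En k)) {c : En k} (hc : c ∈ CC Ψ) :
    star c ∈ CC Ψ := fun β => by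
  have h := comm_star (hΨ β) (hc β)
  have h2 := congrArg Star.star h
  rw [star_mul, star_mul, star_star] at h2
  exact h2.symm

/-- orthogonal projection for a definite bilinear form -/
lemma exists_proj_gen {E : Type} [AddCommGroup E] [Module ℝ E] [FiniteDimensional ℝ E]
    (b : E →ₗ[ℝ] E →ₗ[ℝ] ℝ) (hb : ∀ x, b x x = 0 → x = 0) (C : Submodule ℝ E) (X : E) :
    ∃ Y ∈ C, ∀ d ∈ C, b d Y = b d X := by
  let B : C →ₗ[ℝ] Module.Dual ℝ C := (b.flip.domRestrict₁₂ C C)
  have hinj : Function.Injective B := by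
    rw [injective_iff_map_eq_zero]
    intro c hc
    have h1 : b (c : E) (c : E) = 0 := DFunLike.congr_fun hc c
    exact Subtype.ext (hb _ h1)
  have hsur : Function.Surjective B :=
    (LinearMap.injective_iff_surjective_of_finrank_eq_finrank Subspace.dual_finrank_eq.symm).1 hinj
  obtain ⟨Y, hY⟩ := hsur ((b.flip X).domRestrict C)
  exact ⟨Y, Y.2, fun d hd => DFunLike.congr_fun hY ⟨d, hd⟩⟩

/-- the form `tr (d⋆ c)` -/
noncomputable def bf (k : ℕ) : En k →ₗ[ℝ] En k →ₗ[ℝ] ℝ :=
  LinearMap.mk₂ ℝ (fun d c : En k => tr (star d * c))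
    (fun a b c => by rw [star_add, add_mul, tr_add])
    (fun r a c => by rw [star_smul, smul_mul_assoc, tr_smul, star_trivial, smul_eq_mul])
    (fun a b c => by rw [mul_add, tr_add])
    (fun r a c => by rw [mul_smul_comm, tr_smul, smul_eq_mul])

lemma bf_apply (d c : En k) : bf k d c = tr (star d * c) := rfl

/-- the orthogonal projection to the commutant -/
lemma exists_proj (C : Submodule ℝ (En k)) (X : En k) :
    ∃ Y ∈ C, ∀ d ∈ C, tr (star d * Y) = tr (star d * X) :=
  exists_proj_gen (bf k) (fun x hx => eq_zero_of_tr x hx) C X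

lemma proj_unique (C : Submodule ℝ (En k)) (Y Z : En k) (hY : Y ∈ C) (hZ : Z ∈ C)
    (h : ∀ d ∈ C, tr (star d * Y) = tr (star d * Z)) : Y = Z := by
  rw [← sub_eq_zero]
  apply eq_zero_of_tr
  rw [mul_sub, tr_sub, h _ (C.sub_mem hY hZ), sub_self]

/-- differentiate a relation at `0` -/
lemma deriv_comm (f : ℝ → En k) (f' c : En k) (hf : HasDerivAt f f' 0)
    (h : ∀ γ, f γ * c = c * f γ) : f' * c = c * f' := by
  have h1 : HasDerivAt (fun γ => f γ * c) (f' * c) 0 := hf.mul_const c
  have h2 : HasDerivAt (fun γ => c * f γ) (c * f') 0 := hf.const_mul c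
  have h3 : (fun γ => f γ * c) = fun γ => c * f γ := funext h
  rw [h3] at h1
  exact h1.unique h2

lemma e_deriv (X : En k) : HasDerivAt (fun γ : ℝ => exp (γ • X)) X 0 := by
  have h := hasDerivAt_exp_smul_const (𝕂 := ℝ) X 0
  rwa [zero_smul, exp_zero, one_mul] at h

lemma e_deriv_neg (X : En k) : HasDerivAt (fun γ : ℝ => exp ((-γ) • X)) (-X) 0 := by
  have h := e_deriv (-X)
  have h2 : (fun γ : ℝ => exp (γ • (-X))) = fun γ : ℝ => exp ((-γ) • X) := by
    funext γ
    rw [smul_neg, neg_smul]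
  rwa [h2] at h

theorem goalCE : Pool.Agent.Helper61.QS.G_CE := by
  intro k m Ψ XN XS hm hXN hXS hΨ hrep
  obtain ⟨Y0, hY0, hYp⟩ := exists_proj (CC Ψ) XN
  have hmR : (m : ℝ) ≠ 0 := by exact_mod_cast hm
  -- the path `P`
  have hP : ∀ γ : ℝ, Ψ (-(m * γ)) = exp (γ • XS) * exp ((-γ) • XN) := by
    intro γ
    rw [hrep]
    have h1 : -(-((m : ℝ) * γ) / m) = γ := by field_simp
    have h2 : -((m : ℝ) * γ) / m = -γ := by field_simp
    rw [h1, h2]
  -- `Y0` is skew
  have hskew : star Y0 = -Y0 := by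
    have h1 : -star Y0 = Y0 := by
      refine proj_unique (CC Ψ) _ _ ((CC Ψ).neg_mem (CC.star hΨ hY0)) hY0 fun d hd => ?_
      have h2 : tr (star d * star Y0) = -tr (star d * XN) := by
        calc tr (star d * star Y0) = tr (star (Y0 * d)) := by rw [star_mul]
          _ = tr (Y0 * d) := tr_star _
          _ = tr (star (star d) * Y0) := by rw [star_star, tr_mul_comm]
          _ = tr (star (star d) * XN) := hYp _ (CC.star hΨ hd)
          _ = tr (XN * d) := by rw [star_star, tr_mul_comm]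
          _ = tr (star (XN * d)) := (tr_star _).symm
          _ = -tr (star d * XN) := by rw [star_mul, hXN, mul_neg, tr_neg]
      rw [mul_neg, tr_neg, h2, neg_neg, hYp d hd]
    rw [neg_eq_iff_eq_neg] at h1
    exact h1
  -- (a)
  have ha : ∀ c ∈ CC Ψ, c * XN - XN * c ∈ CC Ψ := by
    intro c hc
    have hD : ∀ α : ℝ, exp ((-α) • XN) * c * exp (α • XN) ∈ CC Ψ := by
      intro α β
      obtain ⟨γ, rfl⟩ : ∃ γ : ℝ, β = -(m * γ) := ⟨-β / m, by field_simp⟩
      have hconj : exp (α • XN) * Ψ (-(m * γ)) * exp ((-α) • XN) =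
          star (Ψ (-(m * α))) * Ψ (-(m * (α + γ))) := by
        rw [hP, hP, hP, star_mul, star_exp, star_exp, star_smul, star_smul, hXN, hXS]
        have e1 : (star (-α : ℝ)) • (-XN) = α • XN := by simp
        have e2 : (star (α : ℝ)) • (-XS) = (-α) • XS := by simp
        rw [e1, e2]
        have e3 : exp ((-(α + γ)) • XN) = exp ((-γ) • XN) * exp ((-α) • XN) := by
          rw [← e_add]; congr 2; ring
        have e4 : exp (γ • XS) = exp ((-α) • XS) * exp ((α + γ) • XS) := by
          rw [← e_add]; congr 2; ring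
        rw [e3, e4]
        simp only [mul_assoc]
      have hcc : c * (exp (α • XN) * Ψ (-(m * γ)) * exp ((-α) • XN)) =
          (exp (α • XN) * Ψ (-(m * γ)) * exp ((-α) • XN)) * c := by
        rw [hconj, ← mul_assoc, comm_star (hΨ _) (hc _), mul_assoc, hc, mul_assoc]
      calc exp ((-α) • XN) * c * exp (α • XN) * Ψ (-(m * γ))
          = exp ((-α) • XN) * (c * (exp (α • XN) * Ψ (-(m * γ)) * exp ((-α) • XN))) *
              exp (α • XN) := by
            have := e_neg_mul XN α
            calc _ = exp ((-α) • XN) * c * exp (α • XN) * Ψ (-(m * γ)) * 1 := by rw [mul_one]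
              _ = _ := by rw [← this]; simp only [mul_assoc]
        _ = exp ((-α) • XN) * ((exp (α • XN) * Ψ (-(m * γ)) * exp ((-α) • XN)) * c) *
              exp (α • XN) := by rw [hcc]
        _ = (exp ((-α) • XN) * exp (α • XN)) * Ψ (-(m * γ)) *
              (exp ((-α) • XN) * c * exp (α • XN)) := by simp only [mul_assoc]
        _ = _ := by rw [e_neg_mul, one_mul]
    have hder : HasDerivAt (fun α : ℝ => exp ((-α) • XN) * c * exp (α • XN)) (c * XN - XN * c) 0 := by
      have h1 := ((e_deriv_neg XN).mul_const c).mul (e_deriv XN)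
      have h2 : -XN * c * exp ((0 : ℝ) • XN) + exp ((-(0 : ℝ)) • XN) * c * XN = c * XN - XN * c := by
        rw [neg_zero, e_zero]
        noncomm_ring
      rw [h2] at h1
      exact h1
    intro β
    exact deriv_comm _ _ _ hder fun α => hD α β
  -- (b)
  have hb : ∀ c ∈ CC Ψ, (XN - Y0) * c = c * (XN - Y0) := by
    intro c hc
    set D : En k := (XN - Y0) * c - c * (XN - Y0) with hDdef
    have hDm : D ∈ CC Ψ := by
      have h1 : D = -(c * XN - XN * c) + (c * Y0 - Y0 * c) := by rw [hDdef]; noncomm_ring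
      rw [h1]
      exact (CC Ψ).add_mem ((CC Ψ).neg_mem (ha c hc))
        ((CC Ψ).sub_mem (CC.mul hc hY0) (CC.mul hY0 hc))
    have hperp : ∀ e ∈ CC Ψ, tr (star e * (XN - Y0)) = 0 := by
      intro e he
      rw [mul_sub, tr_sub, hYp e he, sub_self]
    have h2 : D = 0 := by
      apply eq_zero_of_tr
      have h3 : star D * D = star D * (XN - Y0) * c - star D * c * (XN - Y0) := by
        rw [hDdef]; noncomm_ring
      have hsD : star D ∈ CC Ψ := CC.star hΨ hDm
      have h4 : tr (star D * (XN - Y0) * c) = tr (c * star D * (XN - Y0)) := by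
        rw [tr_mul_comm, ← mul_assoc]
      have h5 := hperp (star (c * star D)) (CC.star hΨ (CC.mul hc hsD))
      have h6 := hperp (star (star D * c)) (CC.star hΨ (CC.mul hsD hc))
      rw [star_star] at h5 h6
      rw [h3, tr_sub, h4, h5, h6, sub_zero]
    exact sub_eq_zero.1 h2
  -- (c)
  have hc' : ∀ c ∈ CC Ψ, (XS - XN) * c = c * (XS - XN) := by
    intro c hc
    have hder : HasDerivAt (fun γ : ℝ => exp (γ • XS) * exp ((-γ) • XN)) (XS - XN) 0 := by
      have h1 := (e_deriv XS).mul (e_deriv_neg XN)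
      have h2 : XS * exp ((-(0 : ℝ)) • XN) + exp ((0 : ℝ) • XS) * -XN = XS - XN := by
        rw [neg_zero, e_zero, e_zero]
        noncomm_ring
      rw [h2] at h1
      exact h1
    refine deriv_comm _ _ _ hder fun γ => ?_
    rw [← hP γ]
    exact (hc _).symm
  refine ⟨Y0, hskew, hY0, fun c hc => ⟨hb c hc, ?_⟩⟩
  have h1 := hb c hc
  have h2 := hc' c hc
  have h3 : XS - Y0 = (XN - Y0) + (XS - XN) := by abel
  rw [h3, add_mul, mul_add, h1, h2]

end Pool.Agent.Helper69.QS
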